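import Pool.Agent.CurlF.Dens

/-!
# The proportion of the bad prefixes is at most `1 / 9`
-/

set_option autoImplicit false

namespace Pool.Agent.CurlF

open Finset

theorem card_bad (B : Finset ℤ) {f : ℕ → List ℤ} (hf : IsCurling f) (c : ℤ) (N : ℕ)
    [DecidablePred (Bad f c)] :
    ((Wd B N).filter (Bad f c)).card ≤
      ∑ p ∈ ((range N) ×ˢ (range N)).filter
          (fun p => 3 * p.2 + 2 * ((f 0).length + p.1 + 1) ≤ N),
        B.card ^ (N - (3 * p.2 + 2 * ((f 0).length + p.1 + 1))) * B.card ^ p.2 := by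
  classical
  have hlen : ∀ m, (f m).length = (f 0).length + m := fun m => by
    have := len_add hf 0 m
    rwa [Nat.zero_add] at this
  have hsub : (Wd B N).filter (Bad f c) ⊆
      (((range N) ×ˢ (range N)).filter
          (fun p => 3 * p.2 + 2 * ((f 0).length + p.1 + 1) ≤ N)).biUnion
        (fun p => ((Wd B (N - (3 * p.2 + 2 * ((f 0).length + p.1 + 1)))) ×ˢ (Wd B p.2)).image
          (fun r => r.1 ++ ((r.2 ++ c :: f p.1) ++ ((r.2 ++ c :: f p.1) ++ r.2)))) := by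
    intro y hy
    rw [mem_filter, mem_Wd] at hy
    obtain ⟨⟨hyN, hyB⟩, m, P, T, rfl⟩ := hy
    have hl : N = P.length + (3 * T.length + 2 * ((f 0).length + m + 1)) := by
      rw [← hyN]
      simp only [List.length_append, List.length_cons, hlen m]
      ring
    rw [mem_biUnion]
    refine ⟨(m, T.length), ?_, ?_⟩
    · rw [mem_filter, mem_product, mem_range, mem_range]
      refine ⟨⟨?_, ?_⟩, ?_⟩ <;> (simp only; omega)
    · rw [mem_image]
      refine ⟨(P, T), ?_, rfl⟩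
      rw [mem_product, mem_Wd, mem_Wd]
      refine ⟨⟨?_, ?_⟩, rfl, ?_⟩
      · simp only; omega
      · intro x hx
        exact hyB x (List.mem_append_left _ hx)
      · intro x hx
        refine hyB x ?_
        simp only [List.mem_append]
        exact Or.inr (Or.inl (Or.inl hx))
  refine (card_le_card hsub).trans (card_biUnion_le.trans (sum_le_sum fun p _ => ?_))
  refine card_image_le.trans ?_
  rw [card_product, card_Wd, card_Wd]

theorem geom_le {r : ℝ} (hr0 : 0 ≤ r) (hr : r ≤ 1 / 4) (N : ℕ) :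
    ∑ t ∈ range N, r ^ t ≤ 4 / 3 := by
  have h1 : ∀ M : ℕ, ∑ t ∈ range M, (1 / 4 : ℝ) ^ t ≤ 4 / 3 - (1 / 3) * (1 / 4) ^ M * 4 := by
    intro M
    induction M with
    | zero => norm_num
    | succ M ih =>
      rw [sum_range_succ, pow_succ]
      have : (0 : ℝ) ≤ (1 / 4) ^ M := by positivity
      nlinarith
  calc ∑ t ∈ range N, r ^ t ≤ ∑ t ∈ range N, (1 / 4 : ℝ) ^ t :=
        sum_le_sum fun t _ => pow_le_pow_left₀ hr0 hr t
    _ ≤ 4 / 3 - (1 / 3) * (1 / 4) ^ N * 4 := h1 N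
    _ ≤ 4 / 3 := by
      have : (0 : ℝ) ≤ (1 / 4) ^ N := by positivity
      nlinarith

theorem card_bad_le (B : Finset ℤ) {f : ℕ → List ℤ} (h0 : f 0 ≠ []) (hf : IsCurling f) (c : ℤ)
    (hB : 2 ≤ B.card) (N : ℕ) [DecidablePred (Bad f c)] :
    (((Wd B N).filter (Bad f c)).card : ℝ) ≤ (B.card : ℝ) ^ N / 9 := by
  have hq : (2 : ℝ) ≤ B.card := by exact_mod_cast hB
  have hq0 : (0 : ℝ) < B.card := by linarith
  set q : ℝ := (B.card : ℝ) with hqdef
  have hl1 : 1 ≤ (f 0).length := List.length_pos_of_ne_nil h0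
  set l := (f 0).length with hl
  have hr0 : (0 : ℝ) ≤ 1 / q ^ 2 := by positivity
  have hr4 : 1 / q ^ 2 ≤ 1 / 4 := by
    rw [div_le_div_iff₀ (by positivity) (by norm_num)]
    nlinarith
  have h1 : (((Wd B N).filter (Bad f c)).card : ℝ) ≤
      ∑ p ∈ ((range N) ×ˢ (range N)).filter (fun p => 3 * p.2 + 2 * (l + p.1 + 1) ≤ N),
        q ^ N * ((1 / q ^ 2) ^ p.2 * (1 / q ^ 2) ^ (l + p.1 + 1)) := by
    have h2 := card_bad B hf c N
    have h3 : (((Wd B N).filter (Bad f c)).card : ℝ) ≤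
        ((∑ p ∈ ((range N) ×ˢ (range N)).filter
          (fun p => 3 * p.2 + 2 * ((f 0).length + p.1 + 1) ≤ N),
        B.card ^ (N - (3 * p.2 + 2 * ((f 0).length + p.1 + 1))) * B.card ^ p.2 : ℕ) : ℝ) := by
      exact_mod_cast h2
    refine h3.trans (le_of_eq ?_)
    rw [Nat.cast_sum]
    refine sum_congr rfl fun p hp => ?_
    rw [mem_filter] at hp
    obtain ⟨a, ha⟩ : ∃ a, N = a + (3 * p.2 + 2 * (l + p.1 + 1)) :=
      ⟨N - (3 * p.2 + 2 * (l + p.1 + 1)), by omega⟩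
    have ha2 : N - (3 * p.2 + 2 * ((f 0).length + p.1 + 1)) = a := by omega
    rw [ha2]
    push_cast
    rw [← hqdef, ha]
    generalize l + p.1 + 1 = s
    rw [one_div, inv_pow, inv_pow, ← pow_mul, ← pow_mul]
    field_simp
    ring
  refine h1.trans ?_
  have h4 : ∑ p ∈ ((range N) ×ˢ (range N)).filter (fun p => 3 * p.2 + 2 * (l + p.1 + 1) ≤ N),
        q ^ N * ((1 / q ^ 2) ^ p.2 * (1 / q ^ 2) ^ (l + p.1 + 1)) ≤
      ∑ p ∈ (range N) ×ˢ (range N),
        q ^ N * ((1 / q ^ 2) ^ p.2 * (1 / q ^ 2) ^ (l + p.1 + 1)) :=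
    sum_le_sum_of_subset_of_nonneg (filter_subset _ _) fun p _ _ => by positivity
  refine h4.trans ?_
  have h5 : ∑ p ∈ (range N) ×ˢ (range N),
        q ^ N * ((1 / q ^ 2) ^ p.2 * (1 / q ^ 2) ^ (l + p.1 + 1)) =
      q ^ N * ((1 / q ^ 2) ^ (l + 1) * (∑ m ∈ range N, (1 / q ^ 2) ^ m) *
        (∑ t ∈ range N, (1 / q ^ 2) ^ t)) := by
    rw [sum_product, mul_assoc, sum_mul_sum, mul_sum, mul_sum]
    refine sum_congr rfl fun m _ => ?_
    rw [mul_sum, mul_sum]
    refine sum_congr rfl fun t _ => ?_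
    have : l + m + 1 = (l + 1) + m := by ring
    rw [this, pow_add]
    ring
  rw [h5]
  have h6 := geom_le hr0 hr4 N
  have h7 : (1 / q ^ 2) ^ (l + 1) ≤ (1 / 4 : ℝ) ^ 2 :=
    calc (1 / q ^ 2) ^ (l + 1) ≤ (1 / 4 : ℝ) ^ (l + 1) := pow_le_pow_left₀ hr0 hr4 _
      _ ≤ (1 / 4 : ℝ) ^ 2 := pow_le_pow_of_le_one (by norm_num) (by norm_num) (by omega)
  have h8 : (0 : ℝ) ≤ ∑ t ∈ range N, (1 / q ^ 2) ^ t := sum_nonneg fun t _ => by positivity
  have h9 : (1 / q ^ 2) ^ (l + 1) * (∑ m ∈ range N, (1 / q ^ 2) ^ m) *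
        (∑ t ∈ range N, (1 / q ^ 2) ^ t) ≤ 1 / 9 := by
    have h10 : (1 / q ^ 2) ^ (l + 1) * (∑ m ∈ range N, (1 / q ^ 2) ^ m) ≤ (1 / 4) ^ 2 * (4 / 3) :=
      mul_le_mul h7 h6 h8 (by norm_num)
    calc (1 / q ^ 2) ^ (l + 1) * (∑ m ∈ range N, (1 / q ^ 2) ^ m) *
        (∑ t ∈ range N, (1 / q ^ 2) ^ t) ≤ ((1 / 4) ^ 2 * (4 / 3)) * (4 / 3) :=
          mul_le_mul h10 h6 h8 (by norm_num)
      _ = 1 / 9 := by norm_num
  calc q ^ N * ((1 / q ^ 2) ^ (l + 1) * (∑ m ∈ range N, (1 / q ^ 2) ^ m) *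
        (∑ t ∈ range N, (1 / q ^ 2) ^ t)) ≤ q ^ N * (1 / 9) :=
        mul_le_mul_of_nonneg_left h9 (by positivity)
    _ = q ^ N / 9 := by ring

theorem immortals_finite (B : Finset ℤ) (n : ℕ) : (immortals B n).Finite := by
  refine (Wd B n).finite_toSet.subset ?_
  intro S hS
  exact mem_coe.2 (mem_Wd.2 ⟨hS.1, hS.2.1⟩)

/-- One immortal word gives a positive proportion of immortal words. -/
theorem many_immortals (B : Finset ℤ) {z : List ℤ} {c : ℤ} (hz : Immortal z)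
    (hzB : ∀ x ∈ z, x ∈ B) (hcB : c ∈ B) (hcz : c ∉ z) {n : ℕ} (hn : z.length < n) :
    8 * B.card ^ (n - z.length - 1) ≤ 9 * (immortals B n).ncard := by
  classical
  obtain ⟨hz0, f, hf0, hf, hone⟩ := hz
  subst hf0
  have hB : 2 ≤ B.card := by
    obtain ⟨a, ha⟩ := List.exists_mem_of_ne_nil _ hz0
    have hne : a ≠ c := fun h => hcz (h ▸ ha)
    exact one_lt_card.2 ⟨a, hzB a ha, c, hcB, hne⟩
  obtain ⟨N, rfl⟩ : ∃ N, n = N + 1 + (f 0).length := ⟨n - (f 0).length - 1, by omega⟩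
  have hN : N + 1 + (f 0).length - (f 0).length - 1 = N := by omega
  rw [hN]
  -- the good prefixes
  have h1 : ((Wd B N).filter fun y => ¬ Bad f c y).card ≤
      (immortals B (N + 1 + (f 0).length)).ncard := by
    rw [← Set.ncard_coe_finset]
    refine Set.ncard_le_ncard_of_injOn (fun y => y ++ c :: f 0) ?_ ?_ (immortals_finite _ _)
    · intro y hy
      rw [mem_coe, mem_filter, mem_Wd] at hy
      obtain ⟨⟨hyN, hyB⟩, hgood⟩ := hy
      refine ⟨?_, ?_, immortal_of hz0 hf hone hcz hgood⟩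
      · simp only [List.length_append, List.length_cons, hyN]
        ring
      · intro x hx
        simp only [List.mem_append, List.mem_cons] at hx
        rcases hx with hx | rfl | hx
        · exact hyB x hx
        · exact hcB
        · exact hzB x hx
    · intro y _ y' _ h
      exact List.append_cancel_right h
  have h2 : ((Wd B N).filter (Bad f c)).card + ((Wd B N).filter fun y => ¬ Bad f c y).card =
      B.card ^ N := by
    rw [card_filter_add_card_filter_not, card_Wd]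
  have h3 := card_bad_le B hz0 hf c hB N
  have h4 : (((Wd B N).filter (Bad f c)).card : ℝ) +
      ((Wd B N).filter fun y => ¬ Bad f c y).card = (B.card : ℝ) ^ N := by
    exact_mod_cast h2
  have h5 : (((Wd B N).filter fun y => ¬ Bad f c y).card : ℝ) ≤
      ((immortals B (N + 1 + (f 0).length)).ncard : ℝ) := by exact_mod_cast h1
  have h6 : (8 : ℝ) * (B.card : ℝ) ^ N ≤ 9 * ((immortals B (N + 1 + (f 0).length)).ncard : ℝ) := by
    linarith
  exact_mod_cast h6

end Pool.Agent.CurlF
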