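import Mathlib

/-!
# Definitions for the return word theorem on curling sequences
-/

set_option autoImplicit false

namespace Pool.Agent.CurlF

/-- The curling numbers of the list `l`: the exponents `k` of the powers `Y ^ k` at its end. -/
def powers (l : List ℤ) : Set ℕ :=
  {k : ℕ | ∃ X Y : List ℤ, Y ≠ [] ∧ l = X ++ (List.replicate k Y).flatten}

/-- `X` is the part of the word `X ++ W` up to the end of the last occurrence of `u` in `X ++ W`
(and `X` is empty if `u` does not occur in `X ++ W`): `X` is empty or ends with `u`, and no beginning
of `X ++ W` which is longer than `X` ends with `u`. -/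
def LastEnd (u X W : List ℤ) : Prop :=
  (X = [] ∨ u <:+ X) ∧ ∀ V : List ℤ, V ≠ [] → V <+: W → ¬ u <:+ X ++ V

end Pool.Agent.CurlF
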