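import Pool.Agent.CurlF.Main

/-!
# One counterexample to the curling number conjecture gives a positive proportion of them

If the curling sequence of `z` never reaches `1` and the letter `c` does not occur in `z`, then the
curling sequence of `y ++ c :: z` never reaches `1` either, unless `y` ends with a word
`(T ++ c :: v) ++ (T ++ c :: v) ++ T`, `v` a term of the curling sequence of `z`. The proportion of
the exceptional words `y` of each length is at most `1 / 9`.
-/

set_option autoImplicit false

namespace Pool.Agent.CurlF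

/-- `f` is a curling sequence: `f (n + 1)` is `f n` with its curling number appended. -/
def IsCurling (f : ℕ → List ℤ) : Prop :=
  ∀ n : ℕ, ∃ c : ℕ, IsGreatest (powers (f n)) c ∧ f (n + 1) = f n ++ [(c : ℤ)]

/-- The nonempty word `S` is immortal: no term of its curling sequence has curling number `1`. -/
def Immortal (S : List ℤ) : Prop :=
  S ≠ [] ∧ ∃ f : ℕ → List ℤ, f 0 = S ∧ IsCurling f ∧ ∀ m : ℕ, ¬ IsGreatest (powers (f m)) 1

/-- The immortal words of length `n` over the finite alphabet `B`. -/
def immortals (B : Finset ℤ) (n : ℕ) : Set (List ℤ) :=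
  {S : List ℤ | S.length = n ∧ (∀ x ∈ S, x ∈ B) ∧ Immortal S}

/-! ### Words over a finite alphabet -/

/-- The words of length `n` over `B`. -/
def Wd (B : Finset ℤ) (n : ℕ) : Finset (List ℤ) :=
  (Fintype.piFinset fun _ : Fin n => B).image List.ofFn

theorem mem_Wd {B : Finset ℤ} {n : ℕ} {S : List ℤ} :
    S ∈ Wd B n ↔ S.length = n ∧ ∀ x ∈ S, x ∈ B := by
  unfold Wd
  rw [Finset.mem_image]
  constructor
  · rintro ⟨g, hg, rfl⟩
    refine ⟨by simp, ?_⟩
    intro x hx
    rw [List.mem_ofFn] at hx
    obtain ⟨i, rfl⟩ := hx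
    exact Fintype.mem_piFinset.1 hg i
  · rintro ⟨rfl, h⟩
    refine ⟨S.get, ?_, List.ofFn_get S⟩
    rw [Fintype.mem_piFinset]
    exact fun i => h _ (List.get_mem _ _)

theorem card_Wd (B : Finset ℤ) (n : ℕ) : (Wd B n).card = B.card ^ n := by
  unfold Wd
  rw [Finset.card_image_of_injective _ List.ofFn_injective, Fintype.card_piFinset]
  simp

/-! ### The letters of an immortal sequence -/

theorem letters {f : ℕ → List ℤ} (h0 : f 0 ≠ []) (hf : IsCurling f)
    (hone : ∀ m : ℕ, ¬ IsGreatest (powers (f m)) 1) (m : ℕ) : ∀ x ∈ f m, x ∈ f 0 := by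
  induction m with
  | zero => exact fun x hx => hx
  | succ m ih =>
    obtain ⟨c, _, hc⟩ := hf m
    obtain ⟨Z, Y, hY, hsq⟩ := exists_sq h0 hf (fun ⟨k, hk⟩ => hone k hk) (m + 1)
    have hc2 := hc
    rw [hsq] at hc2
    -- the last letter of `Y` is `c`
    obtain ⟨Y', a, rfl⟩ : ∃ Y' a, Y = Y' ++ [a] :=
      ⟨Y.dropLast, Y.getLast hY, (List.dropLast_append_getLast hY).symm⟩
    have e : Z ++ ((Y' ++ [a]) ++ (Y' ++ [a])) = (Z ++ ((Y' ++ [a]) ++ Y')) ++ [a] := by
      simp [List.append_assoc]
    rw [e] at hc2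
    have h1 := List.append_inj' hc2 rfl
    have ha : a ∈ f m := by
      rw [← h1.1]
      simp
    have hac : a = (c : ℤ) := by
      have := h1.2
      simpa using this
    intro x hx
    rw [hc, List.mem_append] at hx
    rcases hx with hx | hx
    · exact ih x hx
    · rw [List.mem_singleton] at hx
      rw [hx, ← hac]
      exact ih a ha

/-! ### Adding `y ++ [c]` on the left -/

/-- `y` is bad for the sequence `f` and the letter `c`. -/
def Bad (f : ℕ → List ℤ) (c : ℤ) (y : List ℤ) : Prop :=
  ∃ (m : ℕ) (P T : List ℤ), y = P ++ ((T ++ c :: f m) ++ ((T ++ c :: f m) ++ T))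

theorem greatest_of {f : ℕ → List ℤ} {c : ℤ} {y : List ℤ} {m k : ℕ} (hc : c ∉ f m)
    (hk : IsGreatest (powers (f m)) k) (hk2 : 2 ≤ k) (hy : ¬ Bad f c y) :
    IsGreatest (powers (y ++ c :: f m)) k := by
  constructor
  · obtain ⟨X, Y, hY, e⟩ := hk.1
    exact ⟨y ++ c :: X, Y, hY, by rw [e]; simp⟩
  · intro k' hk'
    by_contra hlt
    push Not at hlt
    obtain ⟨X, Y, hY, e⟩ := hk'
    have hs1 : (c :: f m) <:+ y ++ c :: f m := List.suffix_append _ _
    have hs2 : (List.replicate k' Y).flatten <:+ y ++ c :: f m := ⟨X, e.symm⟩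
    obtain ⟨d, rfl⟩ : ∃ d, k' = d + 3 := ⟨k' - 3, by omega⟩
    have h3 : (List.replicate (d + 3) Y).flatten =
        (List.replicate d Y).flatten ++ (Y ++ (Y ++ Y)) := by
      rw [List.replicate_add, List.flatten_append]
      simp [List.replicate_succ]
    have hsY : Y <:+ y ++ c :: f m :=
      (show Y <:+ (List.replicate (d + 3) Y).flatten from
        ⟨(List.replicate d Y).flatten ++ (Y ++ Y), by rw [h3]; simp [List.append_assoc]⟩).trans hs2
    rcases List.suffix_or_suffix_of_suffix hsY hs1 with h | h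
    · -- `Y` is a suffix of `c :: f m`
      rw [List.suffix_cons_iff] at h
      rcases h with h | h
      · -- `Y = c :: f m`
        refine hy ⟨m, X ++ (List.replicate d Y).flatten, [], ?_⟩
        rw [h3, ← List.append_assoc, ← List.append_assoc, ← List.append_assoc] at e
        have e2 : y ++ c :: f m = (X ++ (List.replicate d Y).flatten ++ Y ++ Y) ++ (c :: f m) := by
          rw [e, ← h]
        have e3 := List.append_cancel_right e2
        rw [e3, h]
        simp
      · -- `Y` is a suffix of `f m`, so it does not contain `c`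
        have hcY : c ∉ Y := fun hcY => hc (h.mem hcY)
        have hcP : c ∉ (List.replicate (d + 3) Y).flatten := by
          intro hmem
          rw [List.mem_flatten] at hmem
          obtain ⟨l, hl, hcl⟩ := hmem
          rw [List.mem_replicate] at hl
          rw [hl.2] at hcl
          exact hcY hcl
        rcases List.suffix_or_suffix_of_suffix hs2 hs1 with h4 | h4
        · rw [List.suffix_cons_iff] at h4
          rcases h4 with h4 | h4
          · exact hcP (by rw [h4]; simp)
          · obtain ⟨X', hX'⟩ := h4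
            have := hk.2 ⟨X', Y, hY, hX'.symm⟩
            omega
        · exact hcP (h4.mem (by simp))
    · -- `Y = T ++ c :: f m`
      obtain ⟨T, hT⟩ := h
      refine hy ⟨m, X ++ (List.replicate d Y).flatten, T, ?_⟩
      have e2 : y ++ c :: f m =
          (X ++ (List.replicate d Y).flatten ++ (Y ++ (Y ++ T))) ++ (c :: f m) := by
        rw [e, h3]
        conv_lhs => rw [← hT]
        simp [← hT, List.append_assoc]
      have e3 := List.append_cancel_right e2
      rw [e3, hT]

theorem immortal_of {f : ℕ → List ℤ} {c : ℤ} {y : List ℤ} (h0 : f 0 ≠ []) (hf : IsCurling f)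
    (hone : ∀ m : ℕ, ¬ IsGreatest (powers (f m)) 1) (hc : c ∉ f 0) (hy : ¬ Bad f c y) :
    Immortal (y ++ c :: f 0) := by
  have hcm : ∀ m, c ∉ f m := fun m h => hc (letters h0 hf hone m c h)
  have hg : ∀ m, ∃ k : ℕ, 2 ≤ k ∧ IsGreatest (powers (f m)) k ∧
      IsGreatest (powers (y ++ c :: f m)) k ∧ f (m + 1) = f m ++ [(k : ℤ)] := by
    intro m
    obtain ⟨k, hk, hk1⟩ := hf m
    have h1 : 1 ∈ powers (f m) := ⟨[], f m, ne_nil h0 hf m, by simp⟩
    have h2 : 1 ≤ k := hk.2 h1
    have h3 : k ≠ 1 := by
      rintro rfl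
      exact hone m hk
    have h4 : 2 ≤ k := by omega
    exact ⟨k, h4, hk, greatest_of (hcm m) hk h4 hy, hk1⟩
  refine ⟨by simp, fun m => y ++ c :: f m, rfl, ?_, ?_⟩
  · intro m
    obtain ⟨k, _, _, hk, hk1⟩ := hg m
    exact ⟨k, hk, by simp [hk1]⟩
  · intro m h
    obtain ⟨k, hk2, _, hk, _⟩ := hg m
    have := h.unique hk
    omega

end Pool.Agent.CurlF
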