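import Pool.Agent.CurlF.Dens

/-!
# An immortal word yields an immortal word with all letters at least `2`
-/

set_option autoImplicit false

namespace Pool.Agent.CurlF

theorem split_last (z : List ℤ) :
    (∀ x ∈ z, 2 ≤ x) ∨ ∃ (P : List ℤ) (d : ℤ) (Q : List ℤ), z = P ++ d :: Q ∧ d < 2 ∧
      ∀ x ∈ Q, 2 ≤ x := by
  induction z with
  | nil => left; simp
  | cons a t ih =>
    rcases ih with h | ⟨P, d, Q, rfl, hd, hQ⟩
    · by_cases ha : a < 2
      · exact Or.inr ⟨[], a, t, rfl, ha, h⟩
      · left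
        intro x hx
        rw [List.mem_cons] at hx
        rcases hx with rfl | hx
        · omega
        · exact h x hx
    · exact Or.inr ⟨a :: P, d, Q, rfl, hd, hQ⟩

theorem exists_bound (z : List ℤ) : ∃ M : ℕ, ∀ x ∈ z, x ≤ (M : ℤ) := by
  induction z with
  | nil => exact ⟨0, by simp⟩
  | cons a t ih =>
    obtain ⟨M, hM⟩ := ih
    refine ⟨max M a.toNat, ?_⟩
    intro x hx
    rw [List.mem_cons] at hx
    rcases hx with rfl | hx
    · have := Int.self_le_toNat x
      omega
    · have := hM x hx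
      omega

theorem greatest_drop {P v : List ℤ} {d : ℤ} {k : ℕ} (hd : d < 2) (hv : ∀ x ∈ v, 2 ≤ x)
    (hl : P.length + 1 ≤ v.length) (hk : IsGreatest (powers (P ++ d :: v)) k) (hk2 : 2 ≤ k) :
    IsGreatest (powers v) k := by
  constructor
  · obtain ⟨X, Y, hY, e⟩ := hk.1
    have hs1 : (d :: v) <:+ P ++ d :: v := List.suffix_append _ _
    have hs2 : (List.replicate k Y).flatten <:+ P ++ d :: v := ⟨X, e.symm⟩
    -- `d` is not in the power
    have hYl : Y.length ≤ v.length := by
      have h1 := hs2.length_le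
      rw [List.length_flatten, List.map_replicate, List.sum_replicate, smul_eq_mul,
        List.length_append, List.length_cons] at h1
      have h2 : 2 * Y.length ≤ k * Y.length := Nat.mul_le_mul_right _ hk2
      omega
    have hYs : Y <:+ P ++ d :: v := by
      obtain ⟨j, rfl⟩ : ∃ j, k = j + 1 := ⟨k - 1, by omega⟩
      refine List.IsSuffix.trans ?_ hs2
      rw [List.replicate_add, List.flatten_append]
      simp
    have hYv : Y <:+ v :=
      List.suffix_of_suffix_length_le hYs
        ((List.suffix_cons d v).trans (List.suffix_append _ _)) hYl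
    have hdY : d ∉ (List.replicate k Y).flatten := by
      intro hmem
      rw [List.mem_flatten] at hmem
      obtain ⟨l, hl, hdl⟩ := hmem
      rw [List.mem_replicate] at hl
      rw [hl.2] at hdl
      have := hv d (hYv.mem hdl)
      omega
    rcases List.suffix_or_suffix_of_suffix hs2 hs1 with h | h
    · rw [List.suffix_cons_iff] at h
      rcases h with h | h
      · exact absurd (by rw [h]; simp) hdY
      · obtain ⟨X', hX'⟩ := h
        exact ⟨X', Y, hY, hX'.symm⟩
    · exact absurd (h.mem (by simp)) hdY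
  · rintro k' ⟨X, Y, hY, e⟩
    exact hk.2 ⟨P ++ d :: X, Y, hY, by rw [e]; simp⟩

theorem exists_ge_two {z : List ℤ} (hz : Immortal z) :
    ∃ z' : List ℤ, Immortal z' ∧ (∀ x ∈ z', 2 ≤ x) ∧ ∀ x ∈ z', x ∈ z := by
  rcases split_last z with h | ⟨P, d, Q, hPQ, hd, hQ⟩
  · exact ⟨z, hz, h, fun x hx => hx⟩
  obtain ⟨hz0, f, hf0, hf, hone⟩ := hz
  subst hf0
  -- the parts after the last letter below `2`
  have hv : ∀ n, ∃ v : List ℤ, f n = P ++ d :: v ∧ v.length = Q.length + n ∧ ∀ x ∈ v, 2 ≤ x := by
    intro n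
    induction n with
    | zero => exact ⟨Q, hPQ, rfl, hQ⟩
    | succ n ih =>
      obtain ⟨v, hv1, hv2, hv3⟩ := ih
      obtain ⟨k, hk, hk1⟩ := hf n
      have h1 : 1 ∈ powers (f n) := ⟨[], f n, ne_nil hz0 hf n, by simp⟩
      have h2 : 1 ≤ k := hk.2 h1
      have h3 : k ≠ 1 := by
        rintro rfl
        exact hone n hk
      refine ⟨v ++ [(k : ℤ)], by rw [hk1, hv1]; simp, by simp [hv2]; ring, ?_⟩
      intro x hx
      rw [List.mem_append, List.mem_singleton] at hx
      rcases hx with hx | rfl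
      · exact hv3 x hx
      · have : 2 ≤ k := by omega
        exact_mod_cast this
  choose v hv1 hv2 hv3 using hv
  have hl : (f 0).length = P.length + 1 + Q.length := by
    rw [hPQ, List.length_append, List.length_cons]
    ring
  set L := (f 0).length with hL
  have hg : ∀ n, ∃ k : ℕ, 2 ≤ k ∧ IsGreatest (powers (v (L + n))) k ∧
      v (L + n + 1) = v (L + n) ++ [(k : ℤ)] := by
    intro n
    obtain ⟨k, hk, hk1⟩ := hf (L + n)
    have h1 : 1 ∈ powers (f (L + n)) := ⟨[], f (L + n), ne_nil hz0 hf _, by simp⟩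
    have h2 : 1 ≤ k := hk.2 h1
    have h3 : k ≠ 1 := by
      rintro rfl
      exact hone _ hk
    have h4 : 2 ≤ k := by omega
    refine ⟨k, h4, ?_, ?_⟩
    · rw [hv1] at hk
      refine greatest_drop hd (hv3 _) ?_ hk h4
      rw [hv2]
      omega
    · rw [hv1, hv1] at hk1
      have h5 : (P ++ [d]) ++ v (L + n + 1) = (P ++ [d]) ++ (v (L + n) ++ [(k : ℤ)]) := by
        simpa using hk1
      exact List.append_cancel_left h5
  have hne : ∀ n, v (L + n) ≠ [] := by
    intro n h
    have h1 := hv2 (L + n)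
    rw [h, List.length_nil] at h1
    omega
  refine ⟨v L, ⟨hne 0, fun n => v (L + n), rfl, ?_, ?_⟩, hv3 L, ?_⟩
  · intro n
    obtain ⟨k, _, hk, hk1⟩ := hg n
    exact ⟨k, hk, hk1⟩
  · intro n h
    obtain ⟨k, hk2, hk, _⟩ := hg n
    have := h.unique hk
    omega
  · intro x hx
    refine letters hz0 hf hone L x ?_
    rw [hv1]
    simp [hx]

end Pool.Agent.CurlF
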