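import Mathlib

/-!
# Return words in curling sequences: the combinatorial step on lists

Let `u` be an unbordered word without square suffix. If a word `S = X ++ R` ends with `u` and with a
square `Y ++ Y`, if `u` does not end strictly inside `R`, and if `X` is empty or ends with `u`, then
`u ++ R` is a factor of `X`, or `R` is a suffix of `X`; and `R` contains `u` only at its end.
-/

set_option autoImplicit false

namespace Pool.Agent.CurlF

variable {α : Type*}

/-- `u` is unbordered: no nonempty proper beginning of `u` is a suffix of `u`. -/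
def Unbord (u : List α) : Prop := ∀ v : List α, v ≠ [] → v <+: u → v <:+ u → v = u

/-- `u` has no square suffix. -/
def NoSq (u : List α) : Prop := ∀ Y : List α, Y ≠ [] → ¬ (Y ++ Y) <:+ u

theorem suffix_square {u Y Z : List α} (hu : Unbord u) (hs : NoSq u) (hY : Y ≠ [])
    (h : u <:+ Z ++ (Y ++ Y)) : u <:+ Y := by
  have hYY : (Y ++ Y) <:+ Z ++ (Y ++ Y) := List.suffix_append _ _
  have h1 : u <:+ Y ++ Y := by
    rcases List.suffix_or_suffix_of_suffix h hYY with h2 | h2
    · exact h2
    · exact absurd h2 (hs Y hY)
  have hY2 : Y <:+ Y ++ Y := List.suffix_append _ _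
  rcases List.suffix_or_suffix_of_suffix h1 hY2 with h2 | h2
  · exact h2
  · -- `Y` is a suffix of `u`
    obtain ⟨v, rfl⟩ := h2
    by_cases hv : v = []
    · subst hv; simp
    · exfalso
      have hv1 : v <:+ Y := by
        obtain ⟨t, ht⟩ := h1
        rw [← List.append_assoc] at ht
        have := List.append_cancel_right ht
        exact ⟨t, this⟩
      have hv2 : v = v ++ Y := hu v hv (List.prefix_append _ _)
        (hv1.trans (List.suffix_append _ _))
      have : Y = [] := by
        have h3 := congrArg List.length hv2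
        simp at h3
        exact h3
      exact hY this

/-- Two occurrences of an unbordered word do not overlap. -/
theorem suffix_of_two {u X T : List α} (hu : Unbord u) (hT : T ≠ []) (h1 : u <:+ X)
    (h2 : u <:+ X ++ T) : u <:+ T := by
  rcases List.suffix_or_suffix_of_suffix h2 (List.suffix_append X T) with h | h
  · exact h
  · obtain ⟨v, hv⟩ := h
    by_cases hve : v = []
    · subst hve
      rw [List.nil_append] at hv
      rw [← hv]
    · exfalso
      have hvX : v <:+ X := by
        obtain ⟨t, ht⟩ := h2
        rw [← hv, ← List.append_assoc] at ht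
        exact ⟨t, List.append_cancel_right ht⟩
      have hlen : v.length ≤ u.length := by rw [← hv]; simp
      have hvu : v <:+ u := List.suffix_of_suffix_length_le hvX h1 hlen
      have h3 : v = u := hu v hve ⟨T, hv⟩ hvu
      have h4 := congrArg List.length hv
      rw [h3] at h4
      simp at h4
      exact hT h4

theorem ret {u S X R Y Z : List α} (hu : Unbord u) (hs : NoSq u) (hne : u ≠ []) (hR : R ≠ [])
    (hS : S = X ++ R) (hend : u <:+ S)
    (hno : ∀ V : List α, V ≠ [] → V <+: R → u <:+ X ++ V → V = R)
    (hX : X = [] ∨ u <:+ X) (hY : Y ≠ []) (hSq : S = Z ++ (Y ++ Y)) :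
    u <:+ R ∧ (∀ V : List α, V <+: R → u <:+ V → V = R) ∧ ((u ++ R) <:+: X ∨ R <:+ X) := by
  have huY : u <:+ Y := suffix_square hu hs hY (hSq ▸ hend)
  have hXR : X ++ R = (Z ++ Y) ++ Y := by rw [← hS, hSq, List.append_assoc]
  -- the word `Z ++ Y` is not longer than `X`
  obtain ⟨T, hT1, hT2⟩ : ∃ T, X = (Z ++ Y) ++ T ∧ Y = T ++ R := by
    rcases List.append_eq_append_iff.1 hXR with ⟨a, h1, h2⟩ | ⟨a, h1, h2⟩
    · -- `Z ++ Y = X ++ a`, `R = a ++ Y`
      by_cases ha : a = []
      · subst ha
        refine ⟨[], ?_, ?_⟩
        · simpa using h1.symm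
        · simpa using h2.symm
      · exfalso
        have h3 : a = R := hno a ha ⟨Y, h2.symm⟩ (by
          rw [← h1]; exact huY.trans (List.suffix_append _ _))
        rw [← h3] at h2
        have h4 := congrArg List.length h2
        simp at h4
        exact hY h4
    · exact ⟨a, h1, h2⟩
  have hXne : X ≠ [] := by
    intro h
    rw [hT1] at h
    simp at h
    exact hY h.2.1
  have huX : u <:+ X := hX.resolve_left hXne
  have huR : u <:+ R := suffix_of_two hu hR huX (hS ▸ hend)
  refine ⟨huR, ?_, ?_⟩
  · intro V hV huV
    refine hno V ?_ hV (huV.trans (List.suffix_append _ _))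
    rintro rfl
    exact hne (List.suffix_nil.1 huV)
  by_cases hTe : T = []
  · subst hTe
    have h1 : Y = R := by simpa using hT2
    have h2 : X = Z ++ Y := by simpa using hT1
    subst h1
    exact Or.inr ⟨Z, h2.symm⟩
  · left
    have huT : u <:+ T := by
      refine suffix_of_two (X := Z ++ Y) hu hTe (huY.trans (List.suffix_append _ _)) ?_
      rw [← hT1]; exact huX
    obtain ⟨t, ht⟩ := huT
    refine ⟨Z ++ t, T, ?_⟩
    have e : Z ++ t ++ (u ++ R) ++ T = Z ++ (t ++ u) ++ R ++ T := by
      simp [List.append_assoc]
    rw [e, ht, hT1, hT2]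
    simp [List.append_assoc]

end Pool.Agent.CurlF
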