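import Pool.Agent.CurlF.Src
import Pool.Agent.CurlF.Ret

/-!
# Return words of persistent words in curling sequences
-/

set_option autoImplicit false

namespace Pool.Agent.CurlF

section seq

variable {f : ℕ → List ℤ}

theorem ne_nil (h0 : f 0 ≠ [])
    (hf : ∀ n : ℕ, ∃ c : ℕ, IsGreatest (powers (f n)) c ∧ f (n + 1) = f n ++ [(c : ℤ)]) (n : ℕ) :
    f n ≠ [] := by
  cases n with
  | zero => exact h0
  | succ n =>
    obtain ⟨c, _, hc⟩ := hf n
    rw [hc]
    simp

theorem exists_sq (h0 : f 0 ≠ [])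
    (hf : ∀ n : ℕ, ∃ c : ℕ, IsGreatest (powers (f n)) c ∧ f (n + 1) = f n ++ [(c : ℤ)])
    (hone : ¬ ∃ m : ℕ, IsGreatest (powers (f m)) 1) (n : ℕ) :
    ∃ Z Y : List ℤ, Y ≠ [] ∧ f n = Z ++ (Y ++ Y) := by
  obtain ⟨c, hc, _⟩ := hf n
  have h1 : 1 ∈ powers (f n) := ⟨[], f n, ne_nil h0 hf n, by simp⟩
  have h2 : 1 ≤ c := hc.2 h1
  have h3 : c ≠ 1 := by
    rintro rfl
    exact hone ⟨n, hc⟩
  obtain ⟨d, rfl⟩ : ∃ d, c = d + 2 := ⟨c - 2, by omega⟩
  obtain ⟨X, Y, hY, e⟩ := hc.1
  refine ⟨X ++ (List.replicate d Y).flatten, Y, hY, ?_⟩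
  rw [e, List.replicate_add, List.flatten_append]
  simp [List.replicate_succ]

theorem len_add
    (hf : ∀ n : ℕ, ∃ c : ℕ, IsGreatest (powers (f n)) c ∧ f (n + 1) = f n ++ [(c : ℤ)]) (m j : ℕ) :
    (f (m + j)).length = (f m).length + j := by
  induction j with
  | zero => rfl
  | succ j ih =>
    obtain ⟨c, _, hc⟩ := hf (m + j)
    rw [← Nat.add_assoc, hc, List.length_append, ih]
    rfl

theorem prefix_add
    (hf : ∀ n : ℕ, ∃ c : ℕ, IsGreatest (powers (f n)) c ∧ f (n + 1) = f n ++ [(c : ℤ)]) (m j : ℕ) :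
    f m <+: f (m + j) := by
  induction j with
  | zero => exact List.prefix_refl _
  | succ j ih =>
    obtain ⟨c, _, hc⟩ := hf (m + j)
    rw [← Nat.add_assoc, hc]
    exact ih.trans (List.prefix_append _ _)

theorem prefix_le
    (hf : ∀ n : ℕ, ∃ c : ℕ, IsGreatest (powers (f n)) c ∧ f (n + 1) = f n ++ [(c : ℤ)]) {m n : ℕ}
    (h : m ≤ n) : f m <+: f n := by
  obtain ⟨j, rfl⟩ := Nat.exists_eq_add_of_le h
  exact prefix_add hf m j

/-- The main step: if the unbordered word `u` without square suffix ends infinitely many `f n`,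
then the stretch after its last occurrence in `f m` is a beginning of an old return word. -/
theorem ret_seq (h0 : f 0 ≠ [])
    (hf : ∀ n : ℕ, ∃ c : ℕ, IsGreatest (powers (f n)) c ∧ f (n + 1) = f n ++ [(c : ℤ)])
    (hone : ¬ ∃ m : ℕ, IsGreatest (powers (f m)) 1) {u : List ℤ} (hu : Unbord u) (hs : NoSq u)
    (hne : u ≠ []) (hinf : ∀ T : ℕ, ∃ n, T ≤ n ∧ u <:+ f n) (m c : ℕ) (X W : List ℤ)
    (hm : f m = X ++ W) (hc : IsGreatest (powers (f m)) c) (hL : LastEnd u X W) :
    ∃ R : List ℤ, (W ++ [(c : ℤ)]) <+: R ∧ u <:+ R ∧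
      (∀ V : List ℤ, V <+: R → u <:+ V → V = R) ∧ ((u ++ R) <:+: X ∨ R <:+ X) := by
  classical
  -- the first later end of `u`
  have hex : ∃ n, m + 1 ≤ n ∧ u <:+ f n := hinf (m + 1)
  obtain ⟨n, ⟨hmn, hun⟩, hmin⟩ : ∃ n, (m + 1 ≤ n ∧ u <:+ f n) ∧
      ∀ k, k < n → ¬ (m + 1 ≤ k ∧ u <:+ f k) :=
    ⟨Nat.find hex, Nat.find_spec hex, fun k hk => Nat.find_min hex hk⟩
  obtain ⟨c', hc', hcm⟩ := hf m
  have hcc : c' = c := hc'.unique hc
  subst hcc
  obtain ⟨B, hB⟩ : f (m + 1) <+: f n := prefix_le hf hmn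
  have hfn : f n = X ++ (W ++ [(c' : ℤ)] ++ B) := by
    rw [← hB, hcm, hm]
    simp [List.append_assoc]
  obtain ⟨Z, Y, hY, hsq⟩ := exists_sq h0 hf hone n
  refine ⟨W ++ [(c' : ℤ)] ++ B, List.prefix_append _ _, ?_⟩
  refine ret (S := f n) hu hs hne (by simp) hfn hun ?_ hL.1 hY hsq
  intro V hV hVR huV
  by_cases hVW : V.length ≤ W.length
  · exfalso
    refine hL.2 V hV ?_ huV
    refine List.prefix_of_prefix_length_le hVR ?_ hVW
    rw [List.append_assoc]
    exact List.prefix_append _ _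
  · -- `X ++ V` is some `f k`
    have hlenn : (f n).length = (f m).length + (n - m) := by
      have := len_add hf m (n - m)
      rwa [Nat.add_sub_cancel' (by omega)] at this
    have hVn : X ++ V <+: f n := by
      rw [hfn]
      obtain ⟨t, ht⟩ := hVR
      exact ⟨t, by rw [List.append_assoc, ht]⟩
    have hlm : (f m).length = X.length + W.length := by rw [hm, List.length_append]
    have hlV : X.length + V.length ≤ (f n).length := by
      have := hVn.length_le
      rwa [List.length_append] at this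
    obtain ⟨i, hi⟩ : ∃ i, V.length = W.length + i := ⟨V.length - W.length, by omega⟩
    have hk : f (m + i) = X ++ V := by
      have h1 : f (m + i) <+: f n := prefix_le hf (by omega)
      have h2 : (f (m + i)).length = (X ++ V).length := by
        rw [len_add hf, List.length_append]
        omega
      exact (List.prefix_of_prefix_length_le h1 hVn h2.le).eq_of_length h2
    have hmi : m + i = n := by
      by_contra hne'
      refine hmin (m + i) (by omega) ⟨by omega, ?_⟩
      rw [hk]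
      exact huV
    refine hVR.eq_of_length ?_
    have h3 : (f n).length = X.length + (W ++ [(c' : ℤ)] ++ B).length := by
      rw [hfn, List.length_append]
    omega

end seq

end Pool.Agent.CurlF
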